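import Mathlib

open Filter Topology MeasureTheory ProbabilityTheory
open scoped NNReal

namespace Pool.Agent.Results.MP_320542_pr.AxisLimit

/-- The nearest-neighbour lattice `ℤ^d`: `x` and `y` are adjacent when `∑ |x_i - y_i| = 1`. -/
def lattice (d : ℕ) : SimpleGraph (Fin d → ℤ) where
  Adj x y := ∑ i, |x i - y i| = 1
  symm := by
    constructor
    intro x y h
    rw [← h]
    exact Finset.sum_congr rfl fun i _ => abs_sub_comm _ _
  loopless := by
    constructor
    intro x h
    simp at h

/-- The total weight of the edges of a lattice path (walk). -/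
def walkTime {d : ℕ} (w : (lattice d).edgeSet → ℝ≥0) :
    {x y : Fin d → ℤ} → (lattice d).Walk x y → ℝ
  | _, _, .nil => 0
  | _, _, .cons (u := u) (v := v) h p => (w ⟨s(u, v), h⟩ : ℝ) + walkTime w p

/-- The passage time `T(x, y)`: the infimum of the total weight over all lattice paths from `x`
to `y`. -/
noncomputable def T {d : ℕ} (w : (lattice d).edgeSet → ℝ≥0) (x y : Fin d → ℤ) : ℝ :=
  ⨅ γ : (lattice d).Walk x y, walkTime w γ

/-- The lattice point `n e_1`. -/
def axis (d : ℕ) (n : ℕ) : Fin d → ℤ := fun i => if i.val = 0 then (n : ℤ) else 0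

/-- `B_n = T(0, n e_1) - T(e_1, n e_1)`. -/
noncomputable def B {d : ℕ} (w : (lattice d).edgeSet → ℝ≥0) (n : ℕ) : ℝ :=
  T w 0 (axis d n) - T w (axis d 1) (axis d n)

section Deterministic

variable {d : ℕ} (w : (lattice d).edgeSet → ℝ≥0)

lemma walkTime_nonneg {x y : Fin d → ℤ} (γ : (lattice d).Walk x y) : 0 ≤ walkTime w γ := by
  induction γ with
  | nil => simp [walkTime]
  | cons h p ih =>
    simp only [walkTime]
    positivity

lemma walkTime_append {x y z : Fin d → ℤ} (γ : (lattice d).Walk x y) (γ' : (lattice d).Walk y z) :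
    walkTime w (γ.append γ') = walkTime w γ + walkTime w γ' := by
  induction γ with
  | nil => simp [walkTime]
  | cons h p ih =>
    simp only [SimpleGraph.Walk.cons_append, walkTime]
    rw [ih]
    ring

lemma bddBelow (x y : Fin d → ℤ) :
    BddBelow (Set.range fun γ : (lattice d).Walk x y => walkTime w γ) :=
  ⟨0, by rintro _ ⟨γ, rfl⟩; exact walkTime_nonneg w γ⟩

lemma T_le {x y : Fin d → ℤ} (γ : (lattice d).Walk x y) : T w x y ≤ walkTime w γ :=
  ciInf_le (bddBelow w x y) γ

/-- the `ℓ¹` distance -/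
def dist1 (x y : Fin d → ℤ) : ℤ := ∑ i, |x i - y i|

lemma dist1_nonneg (x y : Fin d → ℤ) : 0 ≤ dist1 x y :=
  Finset.sum_nonneg fun _ _ => abs_nonneg _

/-- one step towards `y` -/
lemma exists_step {x y : Fin d → ℤ} (hxy : x ≠ y) : ∃ x' : Fin d → ℤ, (lattice d).Adj x x' ∧
    dist1 x y = dist1 x' y + 1 ∧
    (∀ i, min (x i) (y i) ≤ x' i ∧ x' i ≤ max (x i) (y i)) := by
  obtain ⟨i, hi⟩ := Function.ne_iff.mp hxy
  rcases lt_or_gt_of_ne hi with h | h
  · refine ⟨Function.update x i (x i + 1), ?_, ?_, ?_⟩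
    · change ∑ j, |x j - Function.update x i (x i + 1) j| = 1
      rw [Finset.sum_eq_single i]
      · simp
      · intro j _ hj
        simp [Function.update_of_ne hj]
      · simp
    · unfold dist1
      rw [← Finset.add_sum_erase _ _ (Finset.mem_univ i), ← Finset.add_sum_erase _ (fun j =>
        |Function.update x i (x i + 1) j - y j|) (Finset.mem_univ i)]
      have h1 : ∑ j ∈ Finset.univ.erase i, |Function.update x i (x i + 1) j - y j| =
          ∑ j ∈ Finset.univ.erase i, |x j - y j| := by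
        refine Finset.sum_congr rfl fun j hj => ?_
        rw [Function.update_of_ne (Finset.ne_of_mem_erase hj)]
      rw [h1]
      simp only [Function.update_self]
      rw [abs_of_neg (by omega), abs_of_nonpos (by omega)]
      ring
    · intro j
      by_cases hj : j = i
      · subst hj
        simp only [Function.update_self]
        omega
      · rw [Function.update_of_ne hj]
        omega
  · refine ⟨Function.update x i (x i - 1), ?_, ?_, ?_⟩
    · change ∑ j, |x j - Function.update x i (x i - 1) j| = 1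
      rw [Finset.sum_eq_single i]
      · simp
      · intro j _ hj
        simp [Function.update_of_ne hj]
      · simp
    · unfold dist1
      rw [← Finset.add_sum_erase _ _ (Finset.mem_univ i), ← Finset.add_sum_erase _ (fun j =>
        |Function.update x i (x i - 1) j - y j|) (Finset.mem_univ i)]
      have h1 : ∑ j ∈ Finset.univ.erase i, |Function.update x i (x i - 1) j - y j| =
          ∑ j ∈ Finset.univ.erase i, |x j - y j| := by
        refine Finset.sum_congr rfl fun j hj => ?_
        rw [Function.update_of_ne (Finset.ne_of_mem_erase hj)]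
      rw [h1]
      simp only [Function.update_self]
      rw [abs_of_pos (by omega), abs_of_nonneg (by omega)]
      ring
    · intro j
      by_cases hj : j = i
      · subst hj
        simp only [Function.update_self]
        omega
      · rw [Function.update_of_ne hj]
        omega

/-- A path inside the box spanned by `x` and `y`. -/
lemma exists_walk (n : ℕ) : ∀ x y : Fin d → ℤ, dist1 x y = n →
    ∃ γ : (lattice d).Walk x y, ∀ α : ℝ,
      (∀ (u v : Fin d → ℤ) (h : (lattice d).Adj u v),
        (∀ i, min (x i) (y i) ≤ u i ∧ u i ≤ max (x i) (y i)) →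
        (∀ i, min (x i) (y i) ≤ v i ∧ v i ≤ max (x i) (y i)) → (w ⟨s(u, v), h⟩ : ℝ) ≤ α) →
      walkTime w γ ≤ α * n := by
  induction n with
  | zero =>
    intro x y h
    have hxy : x = y := by
      by_contra hne
      obtain ⟨x', _, h2, _⟩ := exists_step hne
      have := dist1_nonneg x' y
      push_cast at h
      omega
    subst hxy
    exact ⟨.nil, fun α _ => by simp [walkTime]⟩
  | succ n ih =>
    intro x y h
    have hxy : x ≠ y := by
      rintro rfl
      simp [dist1] at h
      omega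
    obtain ⟨x', h1, h2, h3⟩ := exists_step hxy
    obtain ⟨γ, hγ⟩ := ih x' y (by push_cast at h; omega)
    refine ⟨.cons h1 γ, fun α hα => ?_⟩
    simp only [walkTime]
    have e1 := hα x x' h1 (fun i => by omega) h3
    have e2 := hγ α (fun u v huv hu hv => hα u v huv
      (fun i => by have := hu i; have := h3 i; omega)
      (fun i => by have := hv i; have := h3 i; omega))
    push_cast
    linarith

instance (x y : Fin d → ℤ) : Nonempty ((lattice d).Walk x y) := by
  obtain ⟨n, hn⟩ := Int.eq_ofNat_of_zero_le (dist1_nonneg x y)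
  obtain ⟨γ, _⟩ := exists_walk (fun _ => 0) n x y hn
  exact ⟨γ⟩

lemma T_nonneg (x y : Fin d → ℤ) : 0 ≤ T w x y := le_ciInf fun γ => walkTime_nonneg w γ

lemma T_self (x : Fin d → ℤ) : T w x x = 0 := by
  apply le_antisymm _ (T_nonneg w x x)
  have := T_le w (.nil : (lattice d).Walk x x)
  simpa [walkTime] using this

lemma T_triangle (x y z : Fin d → ℤ) : T w x z ≤ T w x y + T w y z := by
  have h1 : ∀ γ : (lattice d).Walk x y, T w x z - walkTime w γ ≤ T w y z := by
    intro γ
    apply le_ciInf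
    intro γ'
    have := T_le w (γ.append γ')
    rw [walkTime_append] at this
    linarith
  have h2 : T w x z - T w y z ≤ T w x y := by
    apply le_ciInf
    intro γ
    have := h1 γ
    linarith
  linarith

lemma T_le_edge {x y : Fin d → ℤ} (h : (lattice d).Adj x y) (z : Fin d → ℤ) :
    T w x z ≤ w ⟨s(x, y), h⟩ + T w y z := by
  refine (T_triangle w x y z).trans ?_
  have := T_le w (.cons h .nil : (lattice d).Walk x y)
  simp only [walkTime, add_zero] at this
  linarith

lemma T_le_box {α : ℝ} {x y : Fin d → ℤ}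
    (hα : ∀ (u v : Fin d → ℤ) (h : (lattice d).Adj u v),
        (∀ i, min (x i) (y i) ≤ u i ∧ u i ≤ max (x i) (y i)) →
        (∀ i, min (x i) (y i) ≤ v i ∧ v i ≤ max (x i) (y i)) → (w ⟨s(u, v), h⟩ : ℝ) ≤ α) :
    T w x y ≤ α * (dist1 x y : ℤ) := by
  obtain ⟨n, hn⟩ := Int.eq_ofNat_of_zero_le (dist1_nonneg x y)
  obtain ⟨γ, hγ⟩ := exists_walk w n x y hn
  refine (T_le w γ).trans ?_
  rw [hn]
  exact_mod_cast hγ α hα

end Deterministic

section Local

variable {m : ℕ} (w : (lattice (m + 2)).edgeSet → ℝ≥0)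

/-- the cylinder -/
def R (m : ℕ) (N K : ℤ) : Set (Fin (m + 2) → ℤ) :=
  {v | -N ≤ v 0 ∧ v 0 ≤ 0 ∧ ∀ j : Fin (m + 1), |v j.succ| < K}

/-- the box -/
def Bx (m : ℕ) (N K : ℤ) : Set (Fin (m + 2) → ℤ) :=
  {v | -N - 1 ≤ v 0 ∧ v 0 ≤ 1 ∧ ∀ j : Fin (m + 1), |v j.succ| ≤ K}

lemma dist1_succ (x y : Fin (m + 2) → ℤ) :
    dist1 x y = |x 0 - y 0| + ∑ j : Fin (m + 1), |x j.succ - y j.succ| := by
  unfold dist1
  rw [Fin.sum_univ_succ]

lemma axis_zero (n : ℕ) : axis (m + 2) n 0 = n := by simp [axis]

lemma axis_succ (n : ℕ) (j : Fin (m + 1)) : axis (m + 2) n j.succ = 0 := by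
  simp [axis]

lemma adj_le {x y : Fin (m + 2) → ℤ} (h : (lattice (m + 2)).Adj x y) (i : Fin (m + 2)) :
    |x i - y i| ≤ 1 := by
  have h1 : ∑ i, |x i - y i| = 1 := h
  rw [← h1]
  exact Finset.single_le_sum (f := fun i => |x i - y i|) (fun _ _ => abs_nonneg _)
    (Finset.mem_univ i)

lemma adj_eq {x y : Fin (m + 2) → ℤ} (h : (lattice (m + 2)).Adj x y) (h0 : x 0 ≠ y 0)
    (j : Fin (m + 1)) : x j.succ = y j.succ := by
  have h1 : ∑ i, |x i - y i| = 1 := h
  rw [Fin.sum_univ_succ] at h1
  have h2 : 1 ≤ |x 0 - y 0| := Int.one_le_abs (sub_ne_zero.mpr h0)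
  have h3 : ∑ j : Fin (m + 1), |x j.succ - y j.succ| = 0 := by
    have : 0 ≤ ∑ j : Fin (m + 1), |x j.succ - y j.succ| :=
      Finset.sum_nonneg fun _ _ => abs_nonneg _
    omega
  rw [Finset.sum_eq_zero_iff_of_nonneg (fun _ _ => abs_nonneg _)] at h3
  have := h3 j (Finset.mem_univ j)
  rw [abs_eq_zero] at this
  omega

/-- Hypotheses on the weights in the box. -/
structure Conf (N K : ℤ) (α β : ℝ) : Prop where
  edge : ∀ h : (lattice (m + 2)).Adj 0 (axis (m + 2) 1), (w ⟨s(0, axis (m + 2) 1), h⟩ : ℝ) ≤ α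
  small : ∀ (u v : Fin (m + 2) → ℤ) (h : (lattice (m + 2)).Adj u v), u ∈ Bx m N K → v ∈ Bx m N K →
    u ∉ R m N K → v ∉ R m N K → (w ⟨s(u, v), h⟩ : ℝ) ≤ α
  large : ∀ (u v : Fin (m + 2) → ℤ) (h : (lattice (m + 2)).Adj u v), u ∈ R m N K →
    ¬ (u = 0 ∧ v = axis (m + 2) 1) → β ≤ w ⟨s(u, v), h⟩

lemma exit_bound {N K : ℤ} {α β : ℝ} (hα : 0 ≤ α) (hαβ : α < β) (hN : 0 ≤ N) (hK : 1 ≤ K)
    (hK2 : 2 * α ≤ (β - α) * K) (hN2 : α * (2 * K + 2) ≤ (β - α) * (N + 1))
    (hw : Conf w N K α β) {x y : Fin (m + 2) → ℤ} (hxy : (lattice (m + 2)).Adj x y)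
    (hx : x ∈ R m N K) (hy : y ∉ R m N K) :
    α + T w (axis (m + 2) 1) y ≤ β * (dist1 0 y : ℤ) := by
  obtain ⟨hx1, hx2, hx3⟩ := hx
  have hadj0 := adj_le hxy 0
  rw [abs_le] at hadj0
  have hyK : ∀ j : Fin (m + 1), |y j.succ| ≤ K := by
    intro j
    have h1 := adj_le hxy j.succ
    have h2 := hx3 j
    rw [abs_le] at h1
    rw [abs_lt] at h2
    rw [abs_le]
    omega
  have hd0 : (dist1 0 y : ℤ) = |y 0| + ∑ j : Fin (m + 1), |y j.succ| := by
    rw [dist1_succ]
    simp
  have hsumnn : 0 ≤ ∑ j : Fin (m + 1), |y j.succ| := Finset.sum_nonneg fun _ _ => abs_nonneg _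
  have hdnn : (0 : ℝ) ≤ (dist1 0 y : ℤ) := by exact_mod_cast dist1_nonneg 0 y
  by_cases hy0 : y 0 = 1
  · -- exit through the near end
    have h1 : T w (axis (m + 2) 1) y ≤ α * (dist1 (axis (m + 2) 1) y : ℤ) := by
      apply T_le_box
      intro u v h hu hv
      have aux : ∀ u : Fin (m + 2) → ℤ, (∀ i, min (axis (m + 2) 1 i) (y i) ≤ u i ∧
          u i ≤ max (axis (m + 2) 1 i) (y i)) → u 0 = 1 ∧ u ∈ Bx m N K := by
        intro u hu
        have h0 := hu 0
        rw [axis_zero, hy0] at h0
        simp at h0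
        have h0' : u 0 = 1 := by omega
        refine ⟨h0', by omega, by omega, ?_⟩
        intro j
        have hj := hu j.succ
        rw [axis_succ] at hj
        have := hyK j
        rw [abs_le] at this ⊢
        omega
      obtain ⟨hu0, huB⟩ := aux u hu
      obtain ⟨hv0, hvB⟩ := aux v hv
      exact hw.small u v h huB hvB (fun hR => by have := hR.2.1; omega)
        (fun hR => by have := hR.2.1; omega)
    have h2 : dist1 (axis (m + 2) 1) y = dist1 0 y - 1 := by
      rw [hd0, dist1_succ, axis_zero, hy0]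
      simp only [axis_succ]
      simp
    rw [h2] at h1
    push_cast at h1
    have h3 : α * ((dist1 0 y : ℤ) : ℝ) ≤ β * (dist1 0 y : ℤ) :=
      mul_le_mul_of_nonneg_right hαβ.le hdnn
    linarith
  · by_cases hyN : y 0 = -N - 1
    · -- exit through the far end
      let z1 : Fin (m + 2) → ℤ := Fin.cons 1 (fun j : Fin (m + 1) => if j = 0 then K else 0)
      let z2 : Fin (m + 2) → ℤ := Fin.cons (-N - 1) (fun j : Fin (m + 1) => if j = 0 then K else 0)
      have hz10 : z1 0 = 1 := rfl
      have hz20 : z2 0 = -N - 1 := rfl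
      have hz1s : ∀ j : Fin (m + 1), z1 j.succ = if j = 0 then K else 0 := fun j => by simp [z1]
      have hz2s : ∀ j : Fin (m + 1), z2 j.succ = if j = 0 then K else 0 := fun j => by simp [z2]
      have h1 : T w (axis (m + 2) 1) z1 ≤ α * (dist1 (axis (m + 2) 1) z1 : ℤ) := by
        apply T_le_box
        intro u v h hu hv
        have aux : ∀ u : Fin (m + 2) → ℤ, (∀ i, min (axis (m + 2) 1 i) (z1 i) ≤ u i ∧
            u i ≤ max (axis (m + 2) 1 i) (z1 i)) → u 0 = 1 ∧ u ∈ Bx m N K := by
          intro u hu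
          have h0 := hu 0
          rw [axis_zero, hz10] at h0
          simp at h0
          have h0' : u 0 = 1 := by omega
          refine ⟨h0', by omega, by omega, ?_⟩
          intro j
          have hj := hu j.succ
          rw [axis_succ, hz1s] at hj
          rw [abs_le]
          split_ifs at hj <;> omega
        obtain ⟨hu0, huB⟩ := aux u hu
        obtain ⟨hv0, hvB⟩ := aux v hv
        exact hw.small u v h huB hvB (fun hR => by have := hR.2.1; omega)
          (fun hR => by have := hR.2.1; omega)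
      have h2 : T w z1 z2 ≤ α * (dist1 z1 z2 : ℤ) := by
        apply T_le_box
        intro u v h hu hv
        have aux : ∀ u : Fin (m + 2) → ℤ, (∀ i, min (z1 i) (z2 i) ≤ u i ∧
            u i ≤ max (z1 i) (z2 i)) → u ∈ Bx m N K ∧ u ∉ R m N K := by
          intro u hu
          have h0 := hu 0
          rw [hz10, hz20] at h0
          refine ⟨⟨by omega, by omega, ?_⟩, ?_⟩
          · intro j
            have hj := hu j.succ
            rw [hz1s, hz2s] at hj
            rw [abs_le]
            split_ifs at hj <;> omega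
          · intro hR
            have h1 := hR.2.2 0
            have hj := hu (Fin.succ 0)
            rw [hz1s, hz2s] at hj
            simp only [if_true] at hj
            rw [abs_lt] at h1
            omega
        obtain ⟨huB, huR⟩ := aux u hu
        obtain ⟨hvB, hvR⟩ := aux v hv
        exact hw.small u v h huB hvB huR hvR
      have h3 : T w z2 y ≤ α * (dist1 z2 y : ℤ) := by
        apply T_le_box
        intro u v h hu hv
        have aux : ∀ u : Fin (m + 2) → ℤ, (∀ i, min (z2 i) (y i) ≤ u i ∧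
            u i ≤ max (z2 i) (y i)) → u 0 = -N - 1 ∧ u ∈ Bx m N K := by
          intro u hu
          have h0 := hu 0
          rw [hz20, hyN] at h0
          have h0' : u 0 = -N - 1 := by omega
          refine ⟨h0', by omega, by omega, ?_⟩
          intro j
          have hj := hu j.succ
          rw [hz2s] at hj
          have := hyK j
          rw [abs_le] at this ⊢
          split_ifs at hj <;> omega
        obtain ⟨hu0, huB⟩ := aux u hu
        obtain ⟨hv0, hvB⟩ := aux v hv
        exact hw.small u v h huB hvB (fun hR => by have := hR.1; omega)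
          (fun hR => by have := hR.1; omega)
      have hsumK : ∑ j : Fin (m + 1), (if j = 0 then K else 0) = K := by simp
      have e1 : dist1 (axis (m + 2) 1) z1 = K := by
        rw [dist1_succ, axis_zero, hz10]
        simp only [axis_succ, hz1s, Nat.cast_one, sub_self, abs_zero, zero_add, zero_sub, abs_neg]
        have habs : ∀ j : Fin (m + 1), |(if j = 0 then K else 0 : ℤ)| = if j = 0 then K else 0 := by
          intro j
          split_ifs
          · exact abs_of_nonneg (by omega)
          · simp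
        simp_rw [habs]
        exact hsumK
      have e2 : dist1 z1 z2 = N + 2 := by
        rw [dist1_succ, hz10, hz20]
        simp only [hz1s, hz2s, sub_self, abs_zero, Finset.sum_const_zero, add_zero]
        rw [abs_of_nonneg (by omega)]
        ring
      have e3 : dist1 z2 y ≤ K + (dist1 0 y - (N + 1)) := by
        rw [dist1_succ, hz20, hyN, hd0, hyN]
        have : ∑ j : Fin (m + 1), |z2 j.succ - y j.succ| ≤
            ∑ j : Fin (m + 1), ((if j = 0 then K else 0) + |y j.succ|) := by
          refine Finset.sum_le_sum fun j _ => ?_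
          rw [hz2s]
          refine (abs_sub _ _).trans ?_
          split_ifs
          · rw [abs_of_nonneg (by omega : (0 : ℤ) ≤ K)]
          · simp
        rw [Finset.sum_add_distrib, hsumK] at this
        have h4 : |(-N - 1 : ℤ)| = N + 1 := by
          rw [abs_of_nonpos (by omega)]
          ring
        rw [h4]
        simp only [sub_self, abs_zero, zero_add]
        omega
      have h4 := T_triangle w (axis (m + 2) 1) z1 y
      have h5 := T_triangle w z1 z2 y
      rw [e1] at h1
      rw [e2] at h2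
      have e3' : ((dist1 z2 y : ℤ) : ℝ) ≤ K + ((dist1 0 y : ℤ) - (N + 1)) := by exact_mod_cast e3
      have h6 := h3.trans (mul_le_mul_of_nonneg_left e3' hα)
      push_cast at h2
      have h7 : ((N : ℝ) + 1) ≤ (dist1 0 y : ℤ) := by
        have : N + 1 ≤ dist1 0 y := by
          rw [hd0, hyN, abs_of_nonpos (by omega)]
          omega
        exact_mod_cast this
      have h8 : (β - α) * ((N : ℝ) + 1) ≤ (β - α) * (dist1 0 y : ℤ) :=
        mul_le_mul_of_nonneg_left h7 (by linarith)
      nlinarith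
    · -- exit through the side
      have hy0' : -N ≤ y 0 ∧ y 0 ≤ 0 := by omega
      have hex : ∃ j : Fin (m + 1), K ≤ |y j.succ| := by
        by_contra hcon
        push Not at hcon
        exact hy ⟨hy0'.1, hy0'.2, hcon⟩
      obtain ⟨j0, hj0⟩ := hex
      let z : Fin (m + 2) → ℤ := Fin.cons 1 (fun j : Fin (m + 1) => y j.succ)
      have hz0 : z 0 = 1 := rfl
      have hzs : ∀ j : Fin (m + 1), z j.succ = y j.succ := fun j => by simp [z]
      have h1 : T w (axis (m + 2) 1) z ≤ α * (dist1 (axis (m + 2) 1) z : ℤ) := by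
        apply T_le_box
        intro u v h hu hv
        have aux : ∀ u : Fin (m + 2) → ℤ, (∀ i, min (axis (m + 2) 1 i) (z i) ≤ u i ∧
            u i ≤ max (axis (m + 2) 1 i) (z i)) → u 0 = 1 ∧ u ∈ Bx m N K := by
          intro u hu
          have h0 := hu 0
          rw [axis_zero, hz0] at h0
          simp at h0
          have h0' : u 0 = 1 := by omega
          refine ⟨h0', by omega, by omega, ?_⟩
          intro j
          have hj := hu j.succ
          rw [axis_succ, hzs] at hj
          have := hyK j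
          rw [abs_le] at this ⊢
          omega
        obtain ⟨hu0, huB⟩ := aux u hu
        obtain ⟨hv0, hvB⟩ := aux v hv
        exact hw.small u v h huB hvB (fun hR => by have := hR.2.1; omega)
          (fun hR => by have := hR.2.1; omega)
      have h2 : T w z y ≤ α * (dist1 z y : ℤ) := by
        apply T_le_box
        intro u v h hu hv
        have aux : ∀ u : Fin (m + 2) → ℤ, (∀ i, min (z i) (y i) ≤ u i ∧
            u i ≤ max (z i) (y i)) → u ∈ Bx m N K ∧ u ∉ R m N K := by
          intro u hu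
          have h0 := hu 0
          rw [hz0] at h0
          have hus : ∀ j : Fin (m + 1), u j.succ = y j.succ := by
            intro j
            have hj := hu j.succ
            rw [hzs] at hj
            omega
          refine ⟨⟨by omega, by omega, ?_⟩, ?_⟩
          · intro j
            rw [hus]
            exact hyK j
          · intro hR
            have h1 := hR.2.2 j0
            rw [hus] at h1
            omega
        obtain ⟨huB, huR⟩ := aux u hu
        obtain ⟨hvB, hvR⟩ := aux v hv
        exact hw.small u v h huB hvB huR hvR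
      have e1 : dist1 (axis (m + 2) 1) z + dist1 z y = dist1 0 y + 1 := by
        rw [dist1_succ, dist1_succ z y, hd0, axis_zero, hz0]
        simp only [axis_succ, hzs, sub_self, abs_zero, Finset.sum_const_zero, add_zero, zero_sub,
          abs_neg, Nat.cast_one, zero_add]
        rw [abs_of_nonneg (by omega : (0 : ℤ) ≤ 1 - y 0), abs_of_nonpos hy0'.2]
        ring
      have h3 := T_triangle w (axis (m + 2) 1) z y
      have e1' : ((dist1 (axis (m + 2) 1) z : ℤ) : ℝ) + ((dist1 z y : ℤ) : ℝ) =
          ((dist1 0 y : ℤ) : ℝ) + 1 := by exact_mod_cast e1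
      have h4 : T w (axis (m + 2) 1) y ≤ α * ((dist1 0 y : ℤ) + 1) := by
        rw [← e1', mul_add]
        linarith
      have h7 : (K : ℝ) ≤ (dist1 0 y : ℤ) := by
        have : K ≤ dist1 0 y := by
          rw [hd0]
          have h8 : |y j0.succ| ≤ ∑ j : Fin (m + 1), |y j.succ| :=
            Finset.single_le_sum (f := fun j : Fin (m + 1) => |y j.succ|) (fun _ _ => abs_nonneg _)
              (Finset.mem_univ j0)
          have h9 := abs_nonneg (y 0)
          omega
        exact_mod_cast this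
      have h8 : (β - α) * (K : ℝ) ≤ (β - α) * (dist1 0 y : ℤ) :=
        mul_le_mul_of_nonneg_left h7 (by linarith)
      nlinarith

lemma adj_zero_axis : (lattice (m + 2)).Adj 0 (axis (m + 2) 1) := by
  change dist1 0 (axis (m + 2) 1) = 1
  rw [dist1_succ]
  simp [axis_zero, axis_succ]

/-- From any point of the cylinder, going outside costs at least as much as going through `e_1`. -/
lemma walk_bound {N K : ℤ} {α β : ℝ} (hα : 0 ≤ α) (hαβ : α < β) (hN : 0 ≤ N) (hK : 1 ≤ K)
    (hK2 : 2 * α ≤ (β - α) * K) (hN2 : α * (2 * K + 2) ≤ (β - α) * (N + 1))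
    (hw : Conf w N K α β) {x t : Fin (m + 2) → ℤ} (γ : (lattice (m + 2)).Walk x t)
    (hx : x ∈ R m N K) (ht : t ∉ R m N K) :
    (w ⟨s(0, axis (m + 2) 1), adj_zero_axis⟩ : ℝ) + T w (axis (m + 2) 1) t ≤
      β * (dist1 0 x : ℤ) + walkTime w γ := by
  induction γ with
  | nil => exact absurd hx ht
  | @cons x y t h p ih =>
    simp only [walkTime]
    by_cases hxy : x = 0 ∧ y = axis (m + 2) 1
    · obtain ⟨rfl, rfl⟩ := hxy
      have h1 := T_le w p
      have h2 : (dist1 0 (0 : Fin (m + 2) → ℤ) : ℤ) = 0 := by simp [dist1]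
      rw [h2]
      push_cast
      linarith
    · have h1 := hw.large x y h hx hxy
      have h2 : dist1 0 y ≤ dist1 0 x + 1 := by
        have h3 : dist1 x y = 1 := h
        rw [← h3]
        unfold dist1
        rw [← Finset.sum_add_distrib]
        refine Finset.sum_le_sum fun i _ => ?_
        exact abs_sub_le _ _ _
      have h3 : ((dist1 0 y : ℤ) : ℝ) ≤ (dist1 0 x : ℤ) + 1 := by exact_mod_cast h2
      have hβ : 0 ≤ β := by linarith
      have h4 := mul_le_mul_of_nonneg_left h3 hβ
      by_cases hy : y ∈ R m N K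
      · have := ih hy ht
        linarith
      · have h5 := exit_bound w hα hαβ hN hK hK2 hN2 hw h hx hy
        have h6 := T_triangle w (axis (m + 2) 1) y t
        have h7 := T_le w p
        have h8 := hw.edge adj_zero_axis
        linarith

lemma B_eq {N K : ℤ} {α β : ℝ} (hα : 0 ≤ α) (hαβ : α < β) (hN : 0 ≤ N) (hK : 1 ≤ K)
    (hK2 : 2 * α ≤ (β - α) * K) (hN2 : α * (2 * K + 2) ≤ (β - α) * (N + 1))
    (hw : Conf w N K α β) {n : ℕ} (hn : 1 ≤ n) :
    B w n = w ⟨s(0, axis (m + 2) 1), adj_zero_axis⟩ := by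
  have h0 : (0 : Fin (m + 2) → ℤ) ∈ R m N K := by
    refine ⟨by simpa using hN, le_rfl, fun j => ?_⟩
    simp
    omega
  have ht : axis (m + 2) n ∉ R m N K := by
    intro h
    have := h.2.1
    rw [axis_zero] at this
    omega
  have h1 : T w 0 (axis (m + 2) n) ≤ w ⟨s(0, axis (m + 2) 1), adj_zero_axis⟩ +
      T w (axis (m + 2) 1) (axis (m + 2) n) := T_le_edge w _ _
  have h2 : (w ⟨s(0, axis (m + 2) 1), adj_zero_axis⟩ : ℝ) + T w (axis (m + 2) 1) (axis (m + 2) n) ≤
      T w 0 (axis (m + 2) n) := by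
    apply le_ciInf
    intro γ
    have := walk_bound w hα hαβ hN hK hK2 hN2 hw γ h0 ht
    have h3 : (dist1 0 (0 : Fin (m + 2) → ℤ) : ℤ) = 0 := by simp [dist1]
    rw [h3] at this
    simpa using this
  unfold B
  linarith

end Local

section Probability

/-- A law which is not a point mass charges both a left and a disjoint right half-line. -/
lemma exists_split (F : Measure ℝ≥0) [IsProbabilityMeasure F] (hF : ∀ x, F {x} ≠ 1) :
    ∃ α β : ℝ≥0, α < β ∧ F (Set.Iic α) ≠ 0 ∧ F (Set.Ici β) ≠ 0 := by
  have key : ∃ α : ℝ≥0, F (Set.Iic α) ≠ 0 ∧ F (Set.Ioi α) ≠ 0 := by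
    by_contra hcon
    push Not at hcon
    set S : Set ℝ≥0 := {x | F (Set.Ioi x) = 0} with hS
    have hne : S.Nonempty := by
      by_contra hemp
      rw [Set.not_nonempty_iff_eq_empty] at hemp
      have h1 : ∀ n : ℕ, F (Set.Iic (n : ℝ≥0)) = 0 := by
        intro n
        by_contra h
        have h2 : (n : ℝ≥0) ∈ S := hcon n h
        rw [hemp] at h2
        exact h2
      have h2 : (⋃ n : ℕ, Set.Iic (n : ℝ≥0)) = Set.univ := by
        rw [Set.eq_univ_iff_forall]
        intro x
        obtain ⟨n, hn⟩ := exists_nat_ge x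
        exact Set.mem_iUnion.mpr ⟨n, hn⟩
      have h3 : F (⋃ n : ℕ, Set.Iic (n : ℝ≥0)) = 0 := measure_iUnion_null h1
      rw [h2, measure_univ] at h3
      exact one_ne_zero h3
    set m := sInf S with hm
    have h1 : F (Set.Ioi m) = 0 := by
      obtain ⟨u, _, hu2, hu3⟩ := exists_seq_tendsto_sInf hne (OrderBot.bddBelow S)
      have h2 : Set.Ioi m ⊆ ⋃ n, Set.Ioi (u n) := by
        intro y hy
        have := (hu2.eventually (gt_mem_nhds hy)).exists
        obtain ⟨n, hn⟩ := this
        exact Set.mem_iUnion.mpr ⟨n, hn⟩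
      exact measure_mono_null h2 (measure_iUnion_null fun n => hu3 n)
    have h2 : F (Set.Iio m) = 0 := by
      rcases eq_or_lt_of_le (bot_le : (⊥ : ℝ≥0) ≤ m) with h0 | h0
      · rw [← h0]
        simp
      · obtain ⟨u, _, hu2, hu3⟩ := exists_seq_strictMono_tendsto' h0
        have h2 : Set.Iio m ⊆ ⋃ n, Set.Iic (u n) := by
          intro y hy
          have := (hu3.eventually (lt_mem_nhds hy)).exists
          obtain ⟨n, hn⟩ := this
          exact Set.mem_iUnion.mpr ⟨n, hn.le⟩
        refine measure_mono_null h2 (measure_iUnion_null fun n => ?_)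
        by_contra h
        have h3 : u n ∈ S := hcon _ h
        have h4 : m ≤ u n := csInf_le (OrderBot.bddBelow S) h3
        exact absurd (hu2 n).2 (not_lt.mpr h4)
    have h3 : F Set.univ ≤ F {m} := by
      have h4 : (Set.univ : Set ℝ≥0) ⊆ (Set.Iio m ∪ Set.Ioi m) ∪ {m} := by
        intro y _
        rcases lt_trichotomy y m with h | h | h
        · exact Or.inl (Or.inl h)
        · exact Or.inr h
        · exact Or.inl (Or.inr h)
      calc F Set.univ ≤ F ((Set.Iio m ∪ Set.Ioi m) ∪ {m}) := measure_mono h4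
        _ ≤ F (Set.Iio m ∪ Set.Ioi m) + F {m} := measure_union_le _ _
        _ = F {m} := by rw [measure_union_null h2 h1, zero_add]
    rw [measure_univ] at h3
    exact hF m (le_antisymm prob_le_one h3)
  obtain ⟨α, h1, h2⟩ := key
  have h3 : Set.Ioi α ⊆ ⋃ n : ℕ, Set.Ici (α + 1 / ((n : ℝ≥0) + 1)) := by
    intro y hy
    have hy' : α < y := hy
    have hpos : 0 < y - α := tsub_pos_of_lt hy'
    obtain ⟨n, hn⟩ := exists_nat_one_div_lt (show (0 : ℝ) < ((y - α : ℝ≥0) : ℝ) by exact_mod_cast hpos)
    refine Set.mem_iUnion.mpr ⟨n, ?_⟩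
    have hn' : 1 / ((n : ℝ≥0) + 1) < y - α := by
      rw [← NNReal.coe_lt_coe]
      push_cast [NNReal.coe_sub hy'.le] at hn ⊢
      exact hn
    have h5 : α + 1 / ((n : ℝ≥0) + 1) ≤ α + (y - α) := add_le_add_right hn'.le α
    rw [add_tsub_cancel_of_le hy'.le] at h5
    exact h5
  have h4 : ∃ n : ℕ, F (Set.Ici (α + 1 / ((n : ℝ≥0) + 1))) ≠ 0 := by
    by_contra hcon
    push Not at hcon
    exact h2 (measure_mono_null h3 (measure_iUnion_null hcon))
  obtain ⟨n, hn⟩ := h4
  exact ⟨α, _, lt_add_of_pos_right _ (by positivity), h1, hn⟩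

lemma finite_Bx (m : ℕ) (N K : ℤ) : (Bx m N K).Finite := by
  have h : Bx m N K ⊆ Set.pi Set.univ (fun _ : Fin (m + 2) => Set.Icc (-(|N| + |K| + 1)) (|N| + |K| + 1)) := by
    intro v hv i _
    obtain ⟨h1, h2, h3⟩ := hv
    have hN := le_abs_self N
    have hN' := neg_abs_le N
    have hK := le_abs_self K
    have hK' := abs_nonneg K
    have hN'' := abs_nonneg N
    rcases Fin.eq_zero_or_eq_succ i with rfl | ⟨j, rfl⟩
    · simp only [Set.mem_Icc]; omega
    · have := h3 j
      rw [abs_le] at this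
      simp only [Set.mem_Icc]; omega
  exact (Set.Finite.pi fun _ => Set.finite_Icc _ _).subset h

lemma finite_edges (m : ℕ) (N K : ℤ) :
    {e : (lattice (m + 2)).edgeSet | ∀ v ∈ e.val, v ∈ Bx m N K}.Finite := by
  have h1 : ((fun p : (Fin (m + 2) → ℤ) × (Fin (m + 2) → ℤ) => s(p.1, p.2)) ''
      (Bx m N K ×ˢ Bx m N K)).Finite := ((finite_Bx m N K).prod (finite_Bx m N K)).image _
  refine (h1.preimage (f := fun e : (lattice (m + 2)).edgeSet => e.val)
    Subtype.val_injective.injOn).subset ?_
  rintro ⟨e, he⟩ hm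
  induction e using Sym2.ind with
  | _ x y => exact ⟨(x, y), ⟨hm x (Sym2.mem_mk_left _ _), hm y (Sym2.mem_mk_right _ _)⟩, rfl⟩

lemma R_sub_Bx {m : ℕ} {N K : ℤ} {v : Fin (m + 2) → ℤ} (hv : v ∈ R m N K) : v ∈ Bx m N K :=
  ⟨by have := hv.1; omega, by have := hv.2.1; omega, fun j => (hv.2.2 j).le⟩

lemma adj_R_Bx {m : ℕ} {N K : ℤ} {u v : Fin (m + 2) → ℤ} (h : (lattice (m + 2)).Adj u v)
    (hu : u ∈ R m N K) : v ∈ Bx m N K := by
  obtain ⟨h1, h2, h3⟩ := hu
  have h0 := adj_le h 0
  rw [abs_le] at h0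
  refine ⟨by omega, by omega, fun j => ?_⟩
  have h4 := adj_le h j.succ
  have h5 := h3 j
  rw [abs_le] at h4
  rw [abs_lt] at h5
  rw [abs_le]
  omega

open scoped Classical in
/-- the prescription for the edges of the box -/
noncomputable def presc (m : ℕ) (N K : ℤ) (α β : ℝ≥0) (e : (lattice (m + 2)).edgeSet) : Set ℝ≥0 :=
  if e.val = s(0, axis (m + 2) 1) ∨ (∀ v ∈ e.val, v ∉ R m N K) then Set.Iic α else Set.Ici β

lemma conf_of_presc {m : ℕ} {N K : ℤ} (hN : 0 ≤ N) (hK : 1 ≤ K) {α β : ℝ≥0}
    (w : (lattice (m + 2)).edgeSet → ℝ≥0)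
    (hw : ∀ e : (lattice (m + 2)).edgeSet, (∀ v ∈ e.val, v ∈ Bx m N K) → w e ∈ presc m N K α β e) :
    Conf w N K α β := by
  classical
  have h0B : (0 : Fin (m + 2) → ℤ) ∈ Bx m N K := by
    refine ⟨by simp; omega, by simp, fun j => by simp; omega⟩
  have h1B : axis (m + 2) 1 ∈ Bx m N K := by
    refine ⟨by rw [axis_zero]; push_cast; omega, by rw [axis_zero]; simp, fun j => ?_⟩
    rw [axis_succ]
    simp
    omega
  have h1R : axis (m + 2) 1 ∉ R m N K := by
    intro h
    have := h.2.1
    rw [axis_zero] at this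
    simp at this
  have mem_pair : ∀ {x y : Fin (m + 2) → ℤ} {S : Set (Fin (m + 2) → ℤ)}, x ∈ S → y ∈ S →
      ∀ v ∈ s(x, y), v ∈ S := by
    intro x y S hx hy v hv
    rw [Sym2.mem_iff] at hv
    rcases hv with rfl | rfl
    · exact hx
    · exact hy
  constructor
  · intro h
    have := hw ⟨s(0, axis (m + 2) 1), h⟩ (mem_pair h0B h1B)
    unfold presc at this
    rw [if_pos (Or.inl rfl)] at this
    exact_mod_cast this
  · intro u v h hu hv huR hvR
    have hc : ∀ v' ∈ s(u, v), v' ∉ R m N K := mem_pair (S := (R m N K)ᶜ) huR hvR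
    have h1 := hw ⟨s(u, v), h⟩ (mem_pair hu hv)
    have h2 : presc m N K α β ⟨s(u, v), h⟩ = Set.Iic α := if_pos (Or.inr hc)
    rw [h2] at h1
    exact_mod_cast h1
  · intro u v h hu huv
    have := hw ⟨s(u, v), h⟩ (mem_pair (R_sub_Bx hu) (adj_R_Bx h hu))
    unfold presc at this
    rw [if_neg] at this
    · exact_mod_cast this
    · rintro (h1 | h1)
      · have h1' : s(u, v) = s(0, axis (m + 2) 1) := h1
        rw [Sym2.eq_iff] at h1'
        rcases h1' with h2 | ⟨h2, _⟩
        · exact huv h2
        · rw [h2] at hu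
          exact h1R hu
      · exact h1 u (Sym2.mem_mk_left _ _) hu

end Probability

/-- For every dimension `d ≥ 2` and every law `F` on `[0, ∞)` which is not a point mass (in
particular for every continuous law), in first-passage percolation with i.i.d. edge weights of law
`F` the sequence `B_n = T(0, n e_1) - T(e_1, n e_1)` converges with positive probability. -/
theorem result (d : ℕ) (hd : 2 ≤ d) (F : Measure ℝ≥0) [IsProbabilityMeasure F]
    (hF : ∀ x : ℝ≥0, F {x} ≠ 1)
    {Ω : Type*} [MeasurableSpace Ω] (P : Measure Ω) [IsProbabilityMeasure P]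
    (w : (lattice d).edgeSet → Ω → ℝ≥0) (hmeas : ∀ e, Measurable (w e))
    (hlaw : ∀ e, P.map (w e) = F) (hindep : iIndepFun w P) :
    0 < P {ω | ∃ L : ℝ, Tendsto (fun n : ℕ => B (fun e => w e ω) n) atTop (𝓝 L)} := by
  classical
  obtain ⟨m, rfl⟩ : ∃ m, d = m + 2 := ⟨d - 2, by omega⟩
  obtain ⟨α, β, hαβ, hα, hβ⟩ := exists_split F hF
  have hαβ' : (α : ℝ) < β := by exact_mod_cast hαβ
  have hδ : (0 : ℝ) < (β : ℝ) - α := by linarith
  obtain ⟨k0, hk0⟩ := exists_nat_ge (2 * (α : ℝ) / (β - α))
  set K : ℤ := (k0 : ℤ) + 1 with hK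
  have hK2 : 2 * (α : ℝ) ≤ (β - α) * K := by
    rw [div_le_iff₀ hδ] at hk0
    rw [hK]
    push_cast
    nlinarith
  obtain ⟨n0, hn0⟩ := exists_nat_ge ((α : ℝ) * (2 * K + 2) / (β - α))
  set N : ℤ := (n0 : ℤ) with hN
  have hN2 : (α : ℝ) * (2 * K + 2) ≤ (β - α) * (N + 1) := by
    rw [div_le_iff₀ hδ] at hn0
    rw [hN]
    push_cast
    nlinarith
  have hN0 : 0 ≤ N := by rw [hN]; positivity
  have hK1 : 1 ≤ K := by rw [hK]; omega
  set E := (finite_edges m N K).toFinset with hE
  have hmeasP : ∀ e, MeasurableSet (presc m N K α β e) := by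
    intro e
    unfold presc
    split_ifs
    · exact measurableSet_Iic
    · exact measurableSet_Ici
  have hpos : ∀ e, P (w e ⁻¹' presc m N K α β e) ≠ 0 := by
    intro e
    rw [← Measure.map_apply (hmeas e) (hmeasP e), hlaw e]
    unfold presc
    split_ifs
    · exact hα
    · exact hβ
  have hprod : P (⋂ e ∈ E, w e ⁻¹' presc m N K α β e) =
      ∏ e ∈ E, P (w e ⁻¹' presc m N K α β e) :=
    hindep.measure_inter_preimage_eq_mul E (fun e _ => hmeasP e)
  have hne : P (⋂ e ∈ E, w e ⁻¹' presc m N K α β e) ≠ 0 := by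
    rw [hprod, Finset.prod_ne_zero_iff]
    exact fun e _ => hpos e
  refine lt_of_lt_of_le (pos_iff_ne_zero.mpr hne) (measure_mono ?_)
  intro ω hω
  have hconf : Conf (fun e => w e ω) N K α β := by
    apply conf_of_presc hN0 hK1
    intro e he
    have h1 : e ∈ E := by
      rw [hE, Set.Finite.mem_toFinset]
      exact he
    exact Set.mem_iInter₂.mp hω e h1
  refine ⟨(w ⟨s(0, axis (m + 2) 1), adj_zero_axis⟩ ω : ℝ), ?_⟩
  apply tendsto_const_nhds.congr'
  filter_upwards [eventually_ge_atTop 1] with n hn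
  exact (B_eq (fun e => w e ω) α.2 hαβ' hN0 hK1 hK2 hN2 hconf hn).symm

end Pool.Agent.Results.MP_320542_pr.AxisLimit
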